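import Mathlib

/-!
# Plurisubharmonic functions with values in `[-∞, ∞)`

The sub-mean value inequality is required for all closed analytic discs.  The integral of the
upper semicontinuous function `u ∘ φ` over the circle is the infimum of the integrals of its
continuous majorants, so the inequality is stated with continuous majorants `h`.
-/

set_option autoImplicit false

open Metric Set Filter Topology

namespace Q72.Psh

variable {E : Type*} [NormedAddCommGroup E] [NormedSpace ℂ E]

/-- `u : Ω → [-∞, ∞)` is plurisubharmonic: it is upper semicontinuous, and for every closed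
analytic disc `φ` in `Ω` the value `u (φ 0)` is at most the mean over the circle of every
continuous majorant of `u ∘ φ` (equivalently, at most the mean of `u ∘ φ`). -/
def IsPSH (Ω : Set E) (u : E → EReal) : Prop :=
  UpperSemicontinuousOn u Ω ∧ (∀ x ∈ Ω, u x ≠ ⊤) ∧
  ∀ φ : ℂ → E, AnalyticOnNhd ℂ φ (closedBall 0 1) → MapsTo φ (closedBall 0 1) Ω →
    ∀ h : ℂ → ℝ, ContinuousOn h (sphere 0 1) →
      (∀ ζ ∈ sphere (0 : ℂ) 1, u (φ ζ) ≤ ((h ζ : ℝ) : EReal)) →
      u (φ 0) ≤ ((Real.circleAverage h 0 1 : ℝ) : EReal)

end Q72.Psh
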