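import Mathlib
import Pool.Agent.Q72.Psh.Defs

/-!
# Approximation of continuous functions on the circle by real parts of polynomials
-/

set_option autoImplicit false

open Metric Set Filter Topology

namespace Q72.Psh

/-- real parts of trigonometric polynomials are real parts of entire functions -/
lemma span_re {g : C(AddCircle (1 : ℝ), ℂ)}
    (hg : g ∈ Submodule.span ℂ (range (@fourier 1))) :
    ∃ p : ℂ → ℂ, Differentiable ℂ p ∧
      ∀ θ : AddCircle (1 : ℝ), (g θ).re = (p (AddCircle.toCircle θ : ℂ)).re := by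
  refine Submodule.span_induction (p := fun g _ => ∀ c : ℂ, ∃ p : ℂ → ℂ, Differentiable ℂ p ∧
      ∀ θ : AddCircle (1 : ℝ), (c * g θ).re = (p (AddCircle.toCircle θ : ℂ)).re) ?_ ?_ ?_ ?_ hg 1
      |>.imp fun p hp => ⟨hp.1, fun θ => by have := hp.2 θ; rwa [one_mul] at this⟩
  · rintro _ ⟨n, rfl⟩ c
    by_cases hn : 0 ≤ n
    · obtain ⟨m, rfl⟩ := Int.eq_ofNat_of_zero_le hn
      refine ⟨fun z => c * z ^ m, by fun_prop, fun θ => ?_⟩
      rw [fourier_apply, AddCircle.toCircle_zsmul]
      simp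
    · obtain ⟨m, hm⟩ := Int.eq_ofNat_of_zero_le (show 0 ≤ -n by omega)
      refine ⟨fun z => (starRingEnd ℂ) c * z ^ m, by fun_prop, fun θ => ?_⟩
      rw [fourier_apply, AddCircle.toCircle_zsmul]
      have hn' : n = -(m : ℤ) := by omega
      rw [hn', zpow_neg, zpow_natCast]
      have e1 : ((((AddCircle.toCircle θ) ^ m)⁻¹ : Circle) : ℂ) =
          (starRingEnd ℂ) ((AddCircle.toCircle θ : ℂ) ^ m) := by
        rw [Circle.coe_inv_eq_conj, Circle.coe_pow]
      rw [e1]
      have e2 : (starRingEnd ℂ) c * ((AddCircle.toCircle θ : ℂ) ^ m) =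
          (starRingEnd ℂ) (c * (starRingEnd ℂ) ((AddCircle.toCircle θ : ℂ) ^ m)) := by
        rw [map_mul, Complex.conj_conj]
      show _ = ((starRingEnd ℂ) c * ((AddCircle.toCircle θ : ℂ) ^ m)).re
      rw [e2, Complex.conj_re]
  · intro c
    exact ⟨fun _ => 0, differentiable_const 0, fun θ => by simp⟩
  · intro f g _ _ hf hg c
    obtain ⟨p, hp, hp'⟩ := hf c
    obtain ⟨q, hq, hq'⟩ := hg c
    refine ⟨fun z => p z + q z, hp.add hq, fun θ => ?_⟩
    rw [ContinuousMap.add_apply, mul_add, Complex.add_re, hp', hq', Complex.add_re]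
  · intro a f _ hf c
    obtain ⟨p, hp, hp'⟩ := hf (c * a)
    refine ⟨p, hp, fun θ => ?_⟩
    rw [← hp' θ, ContinuousMap.smul_apply, smul_eq_mul, mul_assoc]

/-- **approximation on the circle** -/
theorem approx {h : ℂ → ℝ} (hh : ContinuousOn h (sphere 0 1)) {δ : ℝ} (hδ : 0 < δ) :
    ∃ p : ℂ → ℂ, Differentiable ℂ p ∧ ∀ ζ ∈ sphere (0 : ℂ) 1, |h ζ - (p ζ).re| < δ := by
  haveI : Fact (0 < (1 : ℝ)) := ⟨one_pos⟩
  -- the function on the additive circle
  have hc : Continuous fun θ : AddCircle (1 : ℝ) => ((h (AddCircle.toCircle θ : ℂ) : ℝ) : ℂ) := by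
    apply Complex.continuous_ofReal.comp
    rw [← continuousOn_univ]
    apply hh.comp
    · apply Continuous.continuousOn
      exact continuous_induced_dom.comp AddCircle.continuous_toCircle
    · intro θ _
      rw [mem_sphere, dist_zero_right]
      exact Circle.norm_coe _
  set f : C(AddCircle (1 : ℝ), ℂ) := ⟨_, hc⟩ with hf
  have h1 : f ∈ (Submodule.span ℂ (range (@fourier 1))).topologicalClosure := by
    rw [span_fourier_closure_eq_top]; trivial
  rw [← SetLike.mem_coe, Submodule.topologicalClosure_coe, Metric.mem_closure_iff] at h1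
  obtain ⟨g, hg, hfg⟩ := h1 δ hδ
  obtain ⟨p, hp, hpg⟩ := span_re hg
  refine ⟨p, hp, fun ζ hζ => ?_⟩
  obtain ⟨θ, hθ⟩ : ∃ θ : AddCircle (1 : ℝ), (AddCircle.toCircle θ : ℂ) = ζ := by
    have hζ' : ζ ∈ Submonoid.unitSphere ℂ := hζ
    obtain ⟨θ, hθ⟩ := (AddCircle.homeomorphCircle (T := 1) one_ne_zero).surjective ⟨ζ, hζ'⟩
    refine ⟨θ, ?_⟩
    rw [AddCircle.homeomorphCircle_apply] at hθ
    rw [hθ]
  rw [← hθ, ← hpg θ]
  have h2 : dist (f θ) (g θ) < δ := lt_of_le_of_lt (ContinuousMap.dist_apply_le_dist θ) hfg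
  rw [dist_eq_norm] at h2
  have h3 : f θ = ((h (AddCircle.toCircle θ : ℂ) : ℝ) : ℂ) := rfl
  have h4 := Complex.abs_re_le_norm (f θ - g θ)
  rw [Complex.sub_re, h3, Complex.ofReal_re] at h4
  rw [h3] at h2
  linarith

/-- circle average of the real part of an entire function -/
lemma avg_re {p : ℂ → ℂ} (hp : Differentiable ℂ p) :
    Real.circleAverage (fun ζ => (p ζ).re) 0 1 = (p 0).re := by
  have h1 : Real.circleAverage p 0 1 = p 0 := by
    apply DiffContOnCl.circleAverage
    exact hp.diffContOnCl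
  have h2 := Complex.reCLM.circleAverage_comp_comm (f := p) (c := 0) (R := 1)
    (hp.continuous.continuousOn.circleIntegrable zero_le_one)
  rw [h1] at h2
  exact h2

/-- comparison of averages -/
lemma avg_le_add {h k : ℂ → ℝ} (hh : ContinuousOn h (sphere 0 1)) (hk : ContinuousOn k (sphere 0 1))
    {δ : ℝ} (hle : ∀ ζ ∈ sphere (0 : ℂ) 1, h ζ ≤ k ζ + δ) :
    Real.circleAverage h 0 1 ≤ Real.circleAverage k 0 1 + δ := by
  have h1 : Real.circleAverage (fun ζ => k ζ + δ) 0 1 = Real.circleAverage k 0 1 + δ := by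
    rw [Real.circleAverage_fun_add (hk.circleIntegrable zero_le_one)
      (continuousOn_const.circleIntegrable zero_le_one), Real.circleAverage_const]
  rw [← h1]
  apply Real.circleAverage_mono (hh.circleIntegrable zero_le_one)
  · exact (hk.add continuousOn_const).circleIntegrable zero_le_one
  · intro ζ hζ
    rw [abs_one] at hζ
    exact hle ζ hζ

end Q72.Psh
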