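import Mathlib
import Pool.Agent.Q72.Psh.Approx

/-!
# Basic properties of plurisubharmonic functions
-/

set_option autoImplicit false

open Metric Set Filter Topology

namespace Q72.Psh

variable {E : Type*} [NormedAddCommGroup E] [NormedSpace ℂ E] {Ω O : Set E} {u v : E → EReal}

lemma IsPSH.mono (hu : IsPSH Ω u) (h : O ⊆ Ω) : IsPSH O u :=
  ⟨hu.1.mono h, fun x hx => hu.2.1 x (h hx), fun φ hφ hm =>
    hu.2.2 φ hφ (fun _ hζ => h (hm hζ))⟩

lemma isPSH_max (hu : IsPSH Ω u) (hv : IsPSH Ω v) : IsPSH Ω (fun z => max (u z) (v z)) := by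
  refine ⟨?_, ?_, ?_⟩
  · intro x hx y hy
    rw [max_lt_iff] at hy
    filter_upwards [hu.1 x hx y hy.1, hv.1 x hx y hy.2] with z h1 h2
    exact max_lt h1 h2
  · intro x hx h
    beta_reduce at h
    rcases max_choice (u x) (v x) with h' | h'
    · rw [h'] at h; exact hu.2.1 x hx h
    · rw [h'] at h; exact hv.2.1 x hx h
  · intro φ hφ hm h hh hle
    apply max_le
    · exact hu.2.2 φ hφ hm h hh fun ζ hζ => (le_max_left _ _).trans (hle ζ hζ)
    · exact hv.2.2 φ hφ hm h hh fun ζ hζ => (le_max_right _ _).trans (hle ζ hζ)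

lemma ereal_sub_le {x : EReal} {a b : ℝ} : x - (a : EReal) ≤ (b : EReal) ↔
    x ≤ ((b + a : ℝ) : EReal) := by
  rw [EReal.sub_le_iff_le_add (Or.inl (EReal.coe_ne_bot a)) (Or.inl (EReal.coe_ne_top a)),
    EReal.coe_add]

/-- composition with an entire map, minus a constant -/
lemma IsPSH.comp_sub {F : Type*} [NormedAddCommGroup F] [NormedSpace ℂ F] [CompleteSpace E]
    [CompleteSpace F] {O : Set F} (hu : IsPSH Ω u) {ψ : F → E} (hψ : Differentiable ℂ ψ) (hm : MapsTo ψ O Ω)
    (η : ℝ) : IsPSH O (fun z => u (ψ z) - (η : EReal)) := by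
  refine ⟨?_, ?_, ?_⟩
  · intro x hx y hy
    have e1 : ∀ w : F, u (ψ w) - (η : EReal) < y ↔ u (ψ w) < y + (η : EReal) := fun w =>
      EReal.sub_lt_iff (Or.inl (EReal.coe_ne_bot η)) (Or.inl (EReal.coe_ne_top η))
    beta_reduce at hy ⊢
    rw [e1] at hy
    have h1 := hu.1 (ψ x) (hm hx) _ hy
    have h2 : Tendsto ψ (𝓝[O] x) (𝓝[Ω] (ψ x)) :=
      tendsto_nhdsWithin_of_tendsto_nhds_of_eventually_within _
        (hψ.continuous.continuousAt.tendsto.mono_left nhdsWithin_le_nhds)
        (eventually_mem_nhdsWithin.mono fun w hw => hm hw)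
    filter_upwards [h2.eventually h1] with w hw
    rw [e1]; exact hw
  · intro x hx h
    beta_reduce at h
    have h1 := hu.2.1 (ψ x) (hm hx)
    rw [sub_eq_add_neg] at h
    rcases eq_or_ne (u (ψ x)) ⊥ with h0 | h0
    · rw [h0, EReal.bot_add] at h
      exact bot_ne_top h
    · lift u (ψ x) to ℝ using ⟨h1, h0⟩ with r
      rw [← EReal.coe_neg, ← EReal.coe_add] at h
      exact EReal.coe_ne_top _ h
  · intro φ hφ hmφ h hh hle
    have h1 := hu.2.2 (fun ζ => ψ (φ ζ)) (fun ζ hζ => by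
      rw [Complex.analyticAt_iff_eventually_differentiableAt]
      have h2 : ∀ᶠ z in 𝓝 ζ, DifferentiableAt ℂ φ z := by
        have h3 := (hφ ζ hζ).eventually_analyticAt
        filter_upwards [h3] with z hz using hz.differentiableAt
      filter_upwards [h2] with z hz
      exact (hψ (φ z)).comp z hz) (fun ζ hζ => hm (hmφ hζ)) (fun ζ => h ζ + η)
      (hh.add continuousOn_const) (fun ζ hζ => ereal_sub_le.1 (hle ζ hζ))
    rw [ereal_sub_le]
    have e1 : Real.circleAverage (fun ζ => h ζ + η) 0 1 = Real.circleAverage h 0 1 + η := by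
      rw [Real.circleAverage_fun_add (hh.circleIntegrable zero_le_one)
        (continuousOn_const.circleIntegrable zero_le_one), Real.circleAverage_const]
    rw [← e1]
    exact h1

/-- scaled real valued psh functions -/
lemma IsPSH.const_mul_real {ρ : E → ℝ} (hρ : IsPSH Ω (fun z => ((ρ z : ℝ) : EReal))) {A : ℝ}
    (hA : 0 < A) : IsPSH Ω (fun z => ((A * ρ z : ℝ) : EReal)) := by
  refine ⟨?_, fun x hx => EReal.coe_ne_top _, ?_⟩
  · intro x hx y hy
    beta_reduce at hy ⊢
    induction y with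
    | bot => exact absurd hy (by simp)
    | top => exact Eventually.of_forall fun w => EReal.coe_lt_top _
    | coe y =>
      rw [EReal.coe_lt_coe_iff] at hy
      have h1 : ((ρ x : ℝ) : EReal) < ((y / A : ℝ) : EReal) := by
        rw [EReal.coe_lt_coe_iff, lt_div_iff₀ hA]; linarith
      filter_upwards [hρ.1 x hx _ h1] with w hw
      rw [EReal.coe_lt_coe_iff] at hw ⊢
      rw [lt_div_iff₀ hA] at hw
      linarith
  · intro φ hφ hm h hh hle
    have h1 := hρ.2.2 φ hφ hm (fun ζ => A⁻¹ * h ζ) (continuousOn_const.mul hh) (fun ζ hζ => by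
      have h2 := hle ζ hζ
      beta_reduce at h2 ⊢
      rw [EReal.coe_le_coe_iff] at h2 ⊢
      rw [← div_eq_inv_mul, le_div_iff₀ hA]
      linarith)
    have e1 : Real.circleAverage (fun ζ => A⁻¹ * h ζ) 0 1 = A⁻¹ * Real.circleAverage h 0 1 := by
      exact Real.circleAverage_smul (a := A⁻¹) (f := h) (c := 0) (R := 1)
    rw [e1] at h1
    beta_reduce at h1 ⊢
    rw [EReal.coe_le_coe_iff] at h1 ⊢
    rw [← div_eq_inv_mul, le_div_iff₀ hA] at h1
    linarith

lemma bump_avg_pos {e1 : ℂ} (he1 : ‖e1‖ = 1) {ε : ℝ} (hε : 0 < ε) :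
    0 < Real.circleAverage (fun ξ => max 0 (1 - ‖ξ - e1‖ / ε)) 0 1 := by
  rw [Real.circleAverage, smul_eq_mul]
  apply mul_pos (by positivity)
  obtain ⟨θ, hθ, hθe⟩ : ∃ θ ∈ Icc (0 : ℝ) (2 * Real.pi), circleMap 0 1 θ = e1 := by
    have h1 : e1 ∈ sphere (0 : ℂ) |1| := by simp [he1]
    rw [← image_circleMap_Ioc] at h1
    obtain ⟨θ, hθ, hθe⟩ := h1
    exact ⟨θ, ⟨hθ.1.le, hθ.2⟩, hθe⟩
  apply intervalIntegral.integral_pos (by positivity)
  · apply Continuous.continuousOn
    have := continuous_circleMap 0 1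
    fun_prop
  · intro x _
    exact le_max_left _ _
  · refine ⟨θ, hθ, ?_⟩
    rw [hθe, sub_self, norm_zero, zero_div, sub_zero]
    exact lt_max_of_lt_right one_pos

/-- **Plurisubharmonicity is a local property.** -/
theorem IsPSH.of_local (hloc : ∀ x ∈ Ω, ∃ O : Set E, IsOpen O ∧ x ∈ O ∧ IsPSH O v) :
    IsPSH Ω v := by
  refine ⟨?_, ?_, ?_⟩
  · intro x hx
    obtain ⟨O, hO, hxO, hpsh⟩ := hloc x hx
    have h1 := hpsh.1 x hxO
    intro y hy
    have h2 := h1 y hy
    rw [hO.nhdsWithin_eq hxO] at h2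
    exact h2.filter_mono nhdsWithin_le_nhds
  · intro x hx
    obtain ⟨O, hO, hxO, hpsh⟩ := hloc x hx
    exact hpsh.2.1 x hxO
  intro φ hφ hm h hh hle
  -- upper semicontinuity and finiteness along the disc
  have hφc : ContinuousOn φ (closedBall 0 1) := hφ.continuousOn
  have hntop : ∀ ζ ∈ closedBall (0 : ℂ) 1, v (φ ζ) ≠ ⊤ := by
    intro ζ hζ
    obtain ⟨O, hO, hxO, hpsh⟩ := hloc (φ ζ) (hm hζ)
    exact hpsh.2.1 _ hxO
  have husc : ∀ ζ ∈ closedBall (0 : ℂ) 1, ∀ y, v (φ ζ) < y → ∀ᶠ ξ in 𝓝 ζ, v (φ ξ) < y := by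
    intro ζ hζ y hy
    obtain ⟨O, hO, hxO, hpsh⟩ := hloc (φ ζ) (hm hζ)
    have h1 := hpsh.1 _ hxO y hy
    rw [hO.nhdsWithin_eq hxO] at h1
    exact (hφ ζ hζ).continuousAt.tendsto.eventually h1
  -- it suffices to prove the inequality up to a constant
  have key : ∀ δ : ℝ, 0 < δ → v (φ 0) ≤ ((Real.circleAverage h 0 1 + 2 * δ : ℝ) : EReal) := by
    intro δ hδ
    obtain ⟨p, hp, hph⟩ := approx hh hδ
    by_contra hcon
    push Not at hcon
    have hpavg : (p 0).re ≤ Real.circleAverage h 0 1 + δ := by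
      rw [← avg_re hp]
      apply avg_le_add (by have := hp.continuous; fun_prop) hh
      intro ζ hζ
      have := abs_lt.1 (hph ζ hζ)
      linarith [this.1]
    have hcon2 : (((p 0).re + δ : ℝ) : EReal) < v (φ 0) := by
      refine lt_of_le_of_lt ?_ hcon
      rw [EReal.coe_le_coe_iff]; linarith
    -- truncation level
    obtain ⟨T, hT⟩ := (isCompact_closedBall (0 : ℂ) 1).exists_bound_of_continuousOn
      (f := fun ζ => (p ζ).re) (by have := hp.continuous; fun_prop)
    have hT' : ∀ ζ ∈ closedBall (0 : ℂ) 1, -T ≤ (p ζ).re := fun ζ hζ => by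
      have := hT ζ hζ
      rw [Real.norm_eq_abs] at this
      linarith [(abs_le.1 this).1]
    set V : ℂ → ℝ := fun ζ => (max (v (φ ζ)) ((-T : ℝ) : EReal)).toReal with hV
    have hVc : ∀ ζ ∈ closedBall (0 : ℂ) 1,
        ((V ζ : ℝ) : EReal) = max (v (φ ζ)) ((-T : ℝ) : EReal) := by
      intro ζ hζ
      apply EReal.coe_toReal
      · exact (max_lt (lt_top_iff_ne_top.2 (hntop ζ hζ)) (EReal.coe_lt_top _)).ne
      · exact (lt_max_of_lt_right (EReal.bot_lt_coe _)).ne'
    have hVusc : UpperSemicontinuousOn V (closedBall (0 : ℂ) 1) := by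
      intro ζ hζ y hy
      have h1 : ((V ζ : ℝ) : EReal) < (y : EReal) := EReal.coe_lt_coe_iff.2 hy
      rw [hVc ζ hζ, max_lt_iff] at h1
      have h2 := (husc ζ hζ _ h1.1).filter_mono (nhdsWithin_le_nhds (s := closedBall (0 : ℂ) 1))
      filter_upwards [h2, self_mem_nhdsWithin] with ξ hξ hξb
      rw [← EReal.coe_lt_coe_iff, hVc ξ hξb]
      exact max_lt hξ h1.2
    set w : ℂ → ℝ := fun ζ => V ζ + -(p ζ).re with hw
    have hwusc : UpperSemicontinuousOn w (closedBall (0 : ℂ) 1) := by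
      apply hVusc.add
      apply ContinuousOn.upperSemicontinuousOn
      have := hp.continuous
      fun_prop
    obtain ⟨ζs, hζs, hmax⟩ := hwusc.exists_isMaxOn ⟨0, by simp⟩ (isCompact_closedBall 0 1)
    set m := w ζs with hm'
    have h0b : (0 : ℂ) ∈ closedBall (0 : ℂ) 1 := by simp
    have hw0 : δ < w 0 := by
      have h1 : (((p 0).re + δ : ℝ) : EReal) < ((V 0 : ℝ) : EReal) := by
        rw [hVc 0 h0b]; exact lt_max_of_lt_left hcon2
      rw [EReal.coe_lt_coe_iff] at h1
      simp only [hw]; linarith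
    have hmδ : δ < m := lt_of_lt_of_le hw0 (hmax h0b)
    -- the maximum set
    obtain ⟨A', hA', hAeq⟩ := upperSemicontinuousOn_iff_preimage_Ici.1 hwusc m
    set A : Set ℂ := closedBall (0 : ℂ) 1 ∩ w ⁻¹' Ici m with hA
    have hAc : IsCompact A := by
      rw [hAeq]
      exact (isCompact_closedBall 0 1).inter_right hA'
    obtain ⟨ζ0, hζ0A, hζ0max⟩ := hAc.exists_isMaxOn ⟨ζs, hζs, le_refl m⟩
      continuous_norm.continuousOn
    obtain ⟨hζ0b, hζ0m⟩ := hζ0A
    have hζ0eq : w ζ0 = m := le_antisymm (hmax hζ0b) hζ0m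
    rw [mem_closedBall, dist_zero_right] at hζ0b
    -- not on the circle
    have hζ0lt : ‖ζ0‖ < 1 := by
      rcases hζ0b.lt_or_eq with h1 | h1
      · exact h1
      · exfalso
        have hs : ζ0 ∈ sphere (0 : ℂ) 1 := by simpa using h1
        have h2 := hle ζ0 hs
        have h3 := abs_lt.1 (hph ζ0 hs)
        have h4 : ((V ζ0 : ℝ) : EReal) ≤ (((p ζ0).re + δ : ℝ) : EReal) := by
          rw [hVc ζ0 (by simpa using h1.le)]
          apply max_le
          · refine h2.trans ?_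
            rw [EReal.coe_le_coe_iff]; linarith
          · rw [EReal.coe_le_coe_iff]
            linarith [hT' ζ0 (by simpa using h1.le)]
        rw [EReal.coe_le_coe_iff] at h4
        have h5 : w ζ0 ≤ δ := by simp only [hw]; linarith
        linarith
    -- local disc
    have hζ0cb : ζ0 ∈ closedBall (0 : ℂ) 1 := by
      rw [mem_closedBall, dist_zero_right]; exact hζ0b
    obtain ⟨O, hO, hxO, hpsh⟩ := hloc (φ ζ0) (hm hζ0cb)
    have hpre : φ ⁻¹' O ∈ 𝓝 ζ0 := (hφ ζ0 hζ0cb).continuousAt.preimage_mem_nhds (hO.mem_nhds hxO)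
    obtain ⟨r0, hr0, hr0s⟩ := Metric.mem_nhds_iff.1 hpre
    set r : ℝ := min (r0 / 2) ((1 - ‖ζ0‖) / 2) with hr
    have hrpos : 0 < r := by
      apply lt_min
      · linarith
      · linarith
    have hr1 : r < r0 := lt_of_le_of_lt (min_le_left _ _) (by linarith)
    have hr2 : ‖ζ0‖ + r < 1 := by
      have : r ≤ (1 - ‖ζ0‖) / 2 := min_le_right _ _
      linarith
    have hin : ∀ ξ ∈ closedBall (0 : ℂ) 1, ζ0 + r * ξ ∈ closedBall (0 : ℂ) 1 ∧
        φ (ζ0 + r * ξ) ∈ O := by
      intro ξ hξ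
      rw [mem_closedBall, dist_zero_right] at hξ
      have h1 : ‖(r : ℂ) * ξ‖ ≤ r := by
        rw [norm_mul, Complex.norm_real, Real.norm_of_nonneg hrpos.le]
        nlinarith
      constructor
      · rw [mem_closedBall, dist_zero_right]
        refine (norm_add_le _ _).trans ?_
        linarith
      · apply hr0s
        rw [mem_ball, dist_eq_norm, add_sub_cancel_left]
        linarith
    -- the outermost point
    obtain ⟨e1, he1, hout⟩ : ∃ e1 : ℂ, ‖e1‖ = 1 ∧ ‖ζ0‖ < ‖ζ0 + r * e1‖ := by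
      by_cases h0 : ζ0 = 0
      · refine ⟨1, by simp, ?_⟩
        rw [h0, norm_zero, zero_add, mul_one, Complex.norm_real, Real.norm_of_nonneg hrpos.le]
        exact hrpos
      · have hn : ‖ζ0‖ ≠ 0 := norm_ne_zero_iff.2 h0
        have hnc : (‖ζ0‖ : ℂ) ≠ 0 := by exact_mod_cast hn
        refine ⟨ζ0 / ‖ζ0‖, by rw [norm_div, Complex.norm_real, norm_norm, div_self hn], ?_⟩
        have e : ζ0 + r * (ζ0 / ‖ζ0‖) = ((‖ζ0‖ + r : ℝ) : ℂ) * (ζ0 / ‖ζ0‖) := by
          push_cast
          field_simp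
        rw [e, norm_mul, Complex.norm_real, Real.norm_of_nonneg (by positivity), norm_div,
          Complex.norm_real, norm_norm, div_self hn, mul_one]
        linarith
    have he1b : e1 ∈ closedBall (0 : ℂ) 1 := by simp [he1]
    have hw1 : w (ζ0 + r * e1) < m := by
      have h0 : w (ζ0 + r * e1) ≤ m := hmax (hin e1 he1b).1
      rcases h0.lt_or_eq with h1 | h1
      · exact h1
      · exfalso
        have h2 : ζ0 + r * e1 ∈ A := ⟨(hin e1 he1b).1, (show m ≤ w (ζ0 + r * e1) from h1.ge)⟩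
        have h3 := hζ0max h2
        have h4 : ‖ζ0 + r * e1‖ ≤ ‖ζ0‖ := h3
        linarith
    obtain ⟨c, hc1, hc2⟩ := exists_between hw1
    have hev : ∀ᶠ ξ in 𝓝[closedBall (0 : ℂ) 1] e1, w (ζ0 + r * ξ) < c := by
      have h1 := hwusc _ (hin e1 he1b).1 c hc1
      have h2 : Tendsto (fun ξ : ℂ => ζ0 + r * ξ) (𝓝[closedBall (0 : ℂ) 1] e1)
          (𝓝[closedBall (0 : ℂ) 1] (ζ0 + r * e1)) := by
        apply tendsto_nhdsWithin_of_tendsto_nhds_of_eventually_within
        · have : Continuous fun ξ : ℂ => ζ0 + r * ξ := by fun_prop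
          exact (this.tendsto e1).mono_left nhdsWithin_le_nhds
        · exact eventually_mem_nhdsWithin.mono fun ξ hξ => (hin ξ hξ).1
      exact h2.eventually h1
    obtain ⟨ε, hε, hεs⟩ := Metric.mem_nhdsWithin_iff.1 hev
    set κ : ℝ := m - c with hκ
    have hκ0 : 0 < κ := by linarith
    set h2 : ℂ → ℝ := fun ξ => ((p (ζ0 + r * ξ)).re + m) + (-κ) * max 0 (1 - ‖ξ - e1‖ / ε)
      with hh2
    have hpc := hp.continuous
    have hloc2 := hpsh.2.2 (fun ξ => φ (ζ0 + r * ξ)) (fun ξ hξ => by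
      exact AnalyticAt.comp (g := φ) (f := fun ξ : ℂ => ζ0 + r * ξ) (x := ξ)
        (hφ _ (hin ξ hξ).1) (by fun_prop)) (fun ξ hξ => (hin ξ hξ).2) h2 (by
        apply Continuous.continuousOn
        rw [hh2]
        fun_prop) (fun ξ hξ => by
        have hξb : ξ ∈ closedBall (0 : ℂ) 1 := sphere_subset_closedBall hξ
        have h3 : v (φ (ζ0 + r * ξ)) ≤ ((V (ζ0 + r * ξ) : ℝ) : EReal) := by
          rw [hVc _ (hin ξ hξb).1]; exact le_max_left _ _
        refine h3.trans ?_
        rw [EReal.coe_le_coe_iff]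
        have h4 : V (ζ0 + r * ξ) = w (ζ0 + r * ξ) + (p (ζ0 + r * ξ)).re := by
          simp only [hw]; ring
        rw [h4]
        have h5 : w (ζ0 + r * ξ) ≤ m := hmax (hin ξ hξb).1
        simp only [hh2]
        by_cases h6 : ‖ξ - e1‖ < ε
        · have h7 : w (ζ0 + r * ξ) < c := by
            apply hεs
            exact ⟨by rwa [mem_ball, dist_eq_norm], hξb⟩
          have h8 : max 0 (1 - ‖ξ - e1‖ / ε) ≤ 1 := by
            apply max_le zero_le_one
            have : 0 ≤ ‖ξ - e1‖ / ε := by positivity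
            linarith
          nlinarith
        · push Not at h6
          have h8 : max 0 (1 - ‖ξ - e1‖ / ε) = 0 := by
            apply max_eq_left
            have : 1 ≤ ‖ξ - e1‖ / ε := by rw [le_div_iff₀ hε]; linarith
            linarith
          rw [h8]; linarith)
    -- compute the average
    have hbc : ContinuousOn (fun ξ : ℂ => max 0 (1 - ‖ξ - e1‖ / ε)) (sphere 0 1) := by
      apply Continuous.continuousOn; fun_prop
    have hqd : Differentiable ℂ (fun ξ : ℂ => p (ζ0 + r * ξ)) :=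
      hp.comp (by fun_prop : Differentiable ℂ fun ξ : ℂ => ζ0 + r * ξ)
    have hqc : ContinuousOn (fun ξ : ℂ => (p (ζ0 + r * ξ)).re) (sphere 0 1) := by
      apply Continuous.continuousOn; fun_prop
    have i1 : CircleIntegrable (fun ξ : ℂ => (p (ζ0 + r * ξ)).re + m) 0 1 :=
      (hqc.add continuousOn_const).circleIntegrable zero_le_one
    have i2 : CircleIntegrable (fun ξ : ℂ => (-κ) * max 0 (1 - ‖ξ - e1‖ / ε)) 0 1 :=
      (continuousOn_const.mul hbc).circleIntegrable zero_le_one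
    have i3 : CircleIntegrable (fun _ : ℂ => m) 0 1 :=
      continuousOn_const.circleIntegrable zero_le_one
    have havg : Real.circleAverage h2 0 1 = ((p ζ0).re + m) +
        (-κ) * Real.circleAverage (fun ξ : ℂ => max 0 (1 - ‖ξ - e1‖ / ε)) 0 1 := by
      rw [hh2, Real.circleAverage_fun_add i1 i2,
        Real.circleAverage_fun_add (hqc.circleIntegrable zero_le_one) i3,
        Real.circleAverage_const, avg_re hqd]
      have := Real.circleAverage_smul (a := -κ) (f := fun ξ : ℂ => max 0 (1 - ‖ξ - e1‖ / ε))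
        (c := 0) (R := 1)
      simp only [mul_zero, add_zero]
      congr 1
    have hpos := bump_avg_pos he1 hε
    have h9 : v (φ ζ0) < ((V ζ0 : ℝ) : EReal) := by
      have h10 : v (φ (ζ0 + r * 0)) ≤ _ := hloc2
      rw [mul_zero, add_zero] at h10
      refine lt_of_le_of_lt h10 ?_
      rw [EReal.coe_lt_coe_iff, havg]
      have h4 : V ζ0 = m + (p ζ0).re := by
        rw [← hζ0eq]; simp only [hw]; ring
      rw [h4]
      nlinarith
    rw [hVc ζ0 hζ0cb] at h9
    have h10 : max (v (φ ζ0)) ((-T : ℝ) : EReal) = ((-T : ℝ) : EReal) := by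
      rcases max_choice (v (φ ζ0)) ((-T : ℝ) : EReal) with h | h
      · rw [h] at h9; exact absurd h9 (lt_irrefl _)
      · exact h
    rw [← hVc ζ0 hζ0cb, EReal.coe_eq_coe_iff] at h10
    have h11 : m = V ζ0 + -(p ζ0).re := hζ0eq.symm
    have h12 := hT' ζ0 hζ0cb
    rw [h10] at h11
    linarith
  -- conclusion
  refine le_of_forall_gt_imp_ge_of_dense fun y hy => ?_
  induction y with
  | bot => exact absurd hy (by simp)
  | top => exact le_top
  | coe y =>
    rw [EReal.coe_lt_coe_iff] at hy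
    have h1 := key ((y - Real.circleAverage h 0 1) / 2) (by linarith)
    refine h1.trans ?_
    rw [EReal.coe_le_coe_iff]; linarith

end Q72.Psh
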